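import Pool.Agent.H43.DPC.Targets

/-!
# MP_47c37b: the module GAU

The heat kernels are Schwartz functions and form a convolution semigroup.
-/

set_option autoImplicit false

open MeasureTheory SchwartzMap Filter Topology
open scoped ENNReal ContDiff Nat

namespace Pool.Agent.H36.DPC

open Pool.Agent.H43.DPC

noncomputable section

/-- The function `exp (c ‖x‖ ^ 2)` for `c = -b < 0` decays with all its derivatives. -/
theorem gauss_decay {d : ℕ} {b : ℝ} (hb : 0 < b) (k n : ℕ) :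
    ∃ C : ℝ, ∀ x : V d, ‖x‖ ^ k * ‖iteratedFDeriv ℝ n (fun y : V d => Real.exp (-b * ‖y‖ ^ 2)) x‖ ≤ C := by
  have hq : Function.HasTemperateGrowth (fun y : V d => -b * ‖y‖ ^ 2) :=
    (Function.HasTemperateGrowth.const (-b)).mul (Function.hasTemperateGrowth_norm_sq (H := V d))
  obtain ⟨m, C, hC0, hC⟩ := hq.norm_iteratedFDeriv_le_uniform n
  set C' : ℝ := max C 1 with hC'
  have hC'1 : 1 ≤ C' := le_max_right _ _
  refine ⟨(n ! : ℝ) * C' ^ n * Real.exp (((k + m * n : ℕ) : ℝ) ^ 2 / (4 * b)), fun x => ?_⟩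
  have hr : 0 ≤ ‖x‖ := norm_nonneg x
  have h1r : 1 ≤ 1 + ‖x‖ := by linarith
  have hD1 : 1 ≤ C' * (1 + ‖x‖) ^ m := one_le_mul_of_one_le_of_one_le hC'1 (one_le_pow₀ h1r)
  have key : ‖iteratedFDeriv ℝ n (fun y : V d => Real.exp (-b * ‖y‖ ^ 2)) x‖
      ≤ n ! * Real.exp (-b * ‖x‖ ^ 2) * (C' * (1 + ‖x‖) ^ m) ^ n := by
    refine norm_iteratedFDeriv_comp_le (𝕜 := ℝ) (g := Real.exp) (f := fun y : V d => -b * ‖y‖ ^ 2)
      (N := n) Real.contDiff_exp (hq.1.of_le (by exact_mod_cast le_top)) le_rfl x ?_ ?_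
    · intro i _
      rw [norm_iteratedFDeriv_eq_norm_iteratedDeriv, iteratedDeriv_eq_iterate, Real.iter_deriv_exp,
        Real.norm_of_nonneg (Real.exp_pos _).le]
    · intro i hi1 hin
      calc ‖iteratedFDeriv ℝ i (fun y : V d => -b * ‖y‖ ^ 2) x‖
          ≤ C * (1 + ‖x‖) ^ m := hC i hin x
        _ ≤ C' * (1 + ‖x‖) ^ m := by gcongr; exact le_max_left _ _
        _ ≤ (C' * (1 + ‖x‖) ^ m) ^ i := le_self_pow₀ hD1 (by omega)
  have hpow : (1 + ‖x‖) ^ (k + m * n) * Real.exp (-b * ‖x‖ ^ 2)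
      ≤ Real.exp (((k + m * n : ℕ) : ℝ) ^ 2 / (4 * b)) := by
    have h1 : (1 + ‖x‖) ^ (k + m * n) ≤ Real.exp (((k + m * n : ℕ) : ℝ) * ‖x‖) := by
      rw [Real.exp_nat_mul]
      refine pow_le_pow_left₀ (by linarith) ?_ _
      linarith [Real.add_one_le_exp ‖x‖]
    calc (1 + ‖x‖) ^ (k + m * n) * Real.exp (-b * ‖x‖ ^ 2)
        ≤ Real.exp (((k + m * n : ℕ) : ℝ) * ‖x‖) * Real.exp (-b * ‖x‖ ^ 2) := by gcongr
      _ = Real.exp (((k + m * n : ℕ) : ℝ) * ‖x‖ + -b * ‖x‖ ^ 2) := (Real.exp_add _ _).symm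
      _ ≤ _ := by
          apply Real.exp_le_exp.mpr
          set K : ℝ := ((k + m * n : ℕ) : ℝ)
          rw [le_div_iff₀ (by positivity)]
          nlinarith [sq_nonneg (2 * b * ‖x‖ - K)]
  calc ‖x‖ ^ k * ‖iteratedFDeriv ℝ n (fun y : V d => Real.exp (-b * ‖y‖ ^ 2)) x‖
      ≤ (1 + ‖x‖) ^ k * (n ! * Real.exp (-b * ‖x‖ ^ 2) * (C' * (1 + ‖x‖) ^ m) ^ n) := by
        gcongr
        linarith
    _ = n ! * C' ^ n * ((1 + ‖x‖) ^ (k + m * n) * Real.exp (-b * ‖x‖ ^ 2)) := by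
        rw [mul_pow, pow_add, pow_mul]; ring
    _ ≤ _ := by gcongr

/-- The Gaussian `exp (-b ‖x‖ ^ 2)` as a Schwartz function. -/
def gaussS (d : ℕ) {b : ℝ} (hb : 0 < b) : S d where
  toFun := fun x : V d => Real.exp (-b * ‖x‖ ^ 2)
  smooth' := by
    have : ContDiff ℝ ∞ (fun x : V d => -b * ‖x‖ ^ 2) :=
      contDiff_const.mul (contDiff_norm_sq ℝ)
    exact Real.contDiff_exp.comp this
  decay' := fun k n => gauss_decay hb k n

theorem gaussS_apply (d : ℕ) {b : ℝ} (hb : 0 < b) (x : V d) :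
    gaussS d hb x = Real.exp (-b * ‖x‖ ^ 2) := rfl

/-- Completing the square. -/
theorem complete_sq {d : ℕ} {s t : ℝ} (hs : 0 < s) (ht : 0 < t) (x y : V d) :
    ‖y‖ ^ 2 / (2 * s) + ‖x - y‖ ^ 2 / (2 * t)
      = ‖x‖ ^ 2 / (2 * (s + t)) + (s + t) / (2 * s * t) * ‖y - (s / (s + t)) • x‖ ^ 2 := by
  have hst : s + t ≠ 0 := by positivity
  rw [norm_sub_sq_real, norm_sub_sq_real, norm_smul, inner_smul_right, real_inner_comm x y,
    Real.norm_of_nonneg (by positivity)]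
  field_simp
  ring

/-- GAU: heat kernels. -/
theorem GAU : T_GAU where
  semigroup := by
    intro d s t hs ht x
    have hb : 0 < (s + t) / (2 * s * t) := by positivity
    have h1 : ∀ y : V d, gau d s y * gau d t (x - y)
        = ((2 * Real.pi * s) ^ (-(d : ℝ) / 2) * (2 * Real.pi * t) ^ (-(d : ℝ) / 2)
            * Real.exp (-(‖x‖ ^ 2 / (2 * (s + t)))))
          * Real.exp (-((s + t) / (2 * s * t)) * ‖y - (s / (s + t)) • x‖ ^ 2) := by
      intro y
      have h2 : Real.exp (-(‖y‖ ^ 2 / (2 * s))) * Real.exp (-(‖x - y‖ ^ 2 / (2 * t)))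
          = Real.exp (-(‖x‖ ^ 2 / (2 * (s + t))))
            * Real.exp (-((s + t) / (2 * s * t)) * ‖y - (s / (s + t)) • x‖ ^ 2) := by
        rw [← Real.exp_add, ← Real.exp_add]
        congr 1
        linarith [complete_sq hs ht x y]
      unfold gau
      linear_combination ((2 * Real.pi * s) ^ (-(d : ℝ) / 2) * (2 * Real.pi * t) ^ (-(d : ℝ) / 2))
        * h2
    simp_rw [h1]
    rw [integral_const_mul,
      integral_sub_right_eq_self (fun y : V d => Real.exp (-((s + t) / (2 * s * t)) * ‖y‖ ^ 2)),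
      GaussianFourier.integral_rexp_neg_mul_sq_norm hb]
    simp only [finrank_euclideanSpace, Fintype.card_fin]
    unfold gau
    have hpi := Real.pi_pos
    have h3 : (2 * Real.pi * s) ^ (-(d : ℝ) / 2) * (2 * Real.pi * t) ^ (-(d : ℝ) / 2)
        * (Real.pi / ((s + t) / (2 * s * t))) ^ ((d : ℝ) / 2)
        = (2 * Real.pi * (s + t)) ^ (-(d : ℝ) / 2) := by
      have e1 : -(d : ℝ) / 2 = -((d : ℝ) / 2) := by ring
      rw [e1, ← Real.mul_rpow (by positivity) (by positivity), Real.rpow_neg (by positivity),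
        Real.rpow_neg (by positivity), ← Real.inv_rpow (by positivity),
        ← Real.mul_rpow (by positivity) (by positivity), ← Real.inv_rpow (by positivity)]
      congr 1
      field_simp
    linear_combination (Real.exp (-(‖x‖ ^ 2 / (2 * (s + t))))) * h3
  exists_S := by
    intro d t ht
    have hb : 0 < 1 / (2 * t) := by positivity
    refine ⟨(2 * Real.pi * t) ^ (-(d : ℝ) / 2) • gaussS d hb, fun x => ?_⟩
    rw [smul_apply, gaussS_apply, smul_eq_mul]
    unfold gau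
    congr 2
    ring

end

end Pool.Agent.H36.DPC
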