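import Pool.Agent.H43.DPC.Targets

/-!
# MP_47c37b: the module TWO (the case n = 2)
-/

set_option autoImplicit false

open MeasureTheory SchwartzMap Filter Topology
open scoped ENNReal ContDiff

namespace Pool.Agent.H36.DPC

open Pool.Agent.H43.DPC

noncomputable section

theorem moment_two {d : ℕ} (μ : Measure (SD d)) (f : Fin 2 → S d) :
    moment μ f = ∫ φ : SD d, φ (f 0) * φ (f 1) ∂μ := by
  unfold moment
  simp only [Fin.prod_univ_two]

/-- the two-point form -/
def form2 {d : ℕ} (μ : Measure (SD d)) (hM : IsMAO μ) : S d →ₗ[ℝ] S d →ₗ[ℝ] ℝ :=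
  have hint : ∀ f g : S d, Integrable (fun φ : SD d => φ f * φ g) μ := fun f g =>
    (hM f 2 (by simp)).integrable_mul (hM g 2 (by simp))
  LinearMap.mk₂ ℝ (fun f g => ∫ φ : SD d, φ f * φ g ∂μ)
    (fun f f' g => by
      rw [← integral_add (hint f g) (hint f' g)]
      refine integral_congr_ae (Eventually.of_forall fun φ => ?_)
      simp only [map_add, add_mul])
    (fun c f g => by
      rw [smul_eq_mul, ← integral_const_mul]
      refine integral_congr_ae (Eventually.of_forall fun φ => ?_)
      simp only [map_smul, smul_eq_mul, mul_assoc])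
    (fun f g g' => by
      rw [← integral_add (hint f g) (hint f g')]
      refine integral_congr_ae (Eventually.of_forall fun φ => ?_)
      simp only [map_add, mul_add])
    (fun c f g => by
      rw [smul_eq_mul, ← integral_const_mul]
      refine integral_congr_ae (Eventually.of_forall fun φ => ?_)
      simp only [map_smul, smul_eq_mul]
      ring)

theorem form2_apply {d : ℕ} (μ : Measure (SD d)) (hM : IsMAO μ) (f g : S d) :
    form2 μ hM f g = ∫ φ : SD d, φ f * φ g ∂μ := rfl

theorem form2_moment {d : ℕ} (μ : Measure (SD d)) (hM : IsMAO μ) (f : Fin 2 → S d) :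
    form2 μ hM (f 0) (f 1) = moment μ f := by
  rw [moment_two, form2_apply]

/-- The diagonal is a null set. -/
theorem diag_null {d : ℕ} (hd : 1 ≤ d) : ∀ᵐ x : Fin 2 → V d, x ∈ (Diag d 2)ᶜ := by
  have : Nonempty (Fin d) := ⟨⟨0, hd⟩⟩
  have : Nontrivial (V d) := inferInstance
  have h1 : ∀ᵐ z : V d × V d, z.1 ≠ z.2 := by
    rw [ae_iff]
    simp only [ne_eq, not_not]
    have hm : MeasurableSet {z : V d × V d | z.1 = z.2} :=
      measurableSet_eq_fun measurable_fst measurable_snd
    rw [Measure.volume_eq_prod, Measure.measure_prod_null hm]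
    refine Eventually.of_forall fun x => ?_
    have : Prod.mk x ⁻¹' {z : V d × V d | z.1 = z.2} = {x} := by
      ext y
      simp [eq_comm]
    simp only [this]
    exact measure_singleton x
  have h2 := (volume_preserving_finTwoArrow (V d)).quasiMeasurePreserving.ae h1
  filter_upwards [h2] with x hx
  rintro ⟨i, j, hij, hxx⟩
  have h3 : x 0 = x 1 := by
    fin_cases i <;> fin_cases j
    · exact absurd rfl hij
    · exact hxx
    · exact hxx.symm
    · exact absurd rfl hij
  exact hx h3

/-- TWO: the case n = 2. -/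
theorem TWO (hCTN : T_CTN) (hHOL : T_HOL) (hINV : T_INV) (hUNQ : T_UNQ) (hKER : T_KER)
    (hGAU : T_GAU) (hWSP : T_WSP) : T_TWO := by
  intro d μ _ hM hT a hS ha h2a hR
  have hd : 1 ≤ d := by
    by_contra h
    have : d = 0 := by omega
    subst this
    simp at h2a
    linarith
  obtain ⟨B', hB', hint', hfor', hpos'⟩ := hKER d hd a ha h2a
  obtain ⟨g, hg⟩ := hGAU.exists_S d 1 one_pos
  have hTPF : TPF d a (form2 μ hM) := by
    refine ⟨?_, ?_, ?_, ?_⟩
    · obtain ⟨C, m, hC, hCb⟩ := hCTN d μ hM 2 (by norm_num)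
      refine ⟨C * C, m, mul_nonneg hC hC, fun f f' => ?_⟩
      have h1 := (hHOL d μ hM).1 2 (by norm_num) ![f, f']
      rw [← form2_moment μ hM, Fin.prod_univ_two] at h1
      simp only [Matrix.cons_val_zero, Matrix.cons_val_one] at h1
      have h2 : Nn μ 2 f * Nn μ 2 f' ≤ (C * pm m f) * (C * pm m f') :=
        mul_le_mul (hCb f) (hCb f') ENNReal.toReal_nonneg
          (ENNReal.toReal_nonneg.trans (hCb f))
      calc |form2 μ hM f f'| ≤ Nn μ 2 f * Nn μ 2 f' := h1
        _ ≤ _ := h2
        _ = C * C * pm m f * pm m f' := by ring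
    · intro h f f'
      have h1 := hINV.moment_trans d μ hT 2 h ![f, f']
      rw [← form2_moment μ hM, ← form2_moment μ hM] at h1
      simpa using h1
    · intro R f f'
      have h1 := hINV.moment_rot d μ hR 2 R ![f, f']
      rw [← form2_moment μ hM, ← form2_moment μ hM] at h1
      simpa using h1
    · intro t f f' ht
      have h1 := hINV.moment_dil d μ a hS 2 t ht ![f, f']
      rw [← form2_moment μ hM, ← form2_moment μ hM] at h1
      simpa using h1
  have hpg := hpos' g hg
  obtain ⟨c, hc⟩ := hUNQ d hd a (form2 μ hM) B' hTPF hB' g hg hpg.ne'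
  have hc0 : 0 ≤ c := by
    have h1 : 0 ≤ form2 μ hM g g := by
      rw [form2_apply]
      exact integral_nonneg fun φ => mul_self_nonneg _
    rw [hc g g] at h1
    exact nonneg_of_mul_nonneg_left h1 hpg
  set s : (Fin 2 → V d) → ℝ := fun x => c * ‖x 0 - x 1‖ ^ (-(2 * a)) with hs
  have hae := diag_null hd
  have hrestr : (volume : Measure (Fin 2 → V d)).restrict (Diag d 2)ᶜ = volume :=
    Measure.restrict_eq_self_of_ae_mem hae
  have hmp := volume_preserving_finTwoArrow (V d)
  have hemb : MeasurableEmbedding (MeasurableEquiv.finTwoArrow (α := V d)) :=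
    MeasurableEquiv.measurableEmbedding _
  have hintF : ∀ f : Fin 2 → S d, Integrable (fun x : Fin 2 → V d => s x * ∏ i, f i (x i)) := by
    intro f
    have h1 := ((hmp.integrable_comp_emb hemb).2 (hint' (f 0) (f 1))).const_mul c
    refine h1.congr (Eventually.of_forall fun x => ?_)
    simp only [hs, Function.comp, MeasurableEquiv.finTwoArrow_apply, Fin.prod_univ_two]
    ring
  have hval : ∀ f : Fin 2 → S d, moment μ f = ∫ x : Fin 2 → V d, s x * ∏ i, f i (x i) := by
    intro f
    rw [← form2_moment μ hM, hc, hfor', ← hmp.integral_comp hemb, ← integral_const_mul]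
    refine integral_congr_ae (Eventually.of_forall fun x => ?_)
    simp only [hs, MeasurableEquiv.finTwoArrow_apply, Fin.prod_univ_two]
    ring
  have hC3 : Cond3 μ 2 s := by
    intro f
    unfold IntegrableOn
    rw [hrestr]
    exact ⟨hintF f, hval f⟩
  refine ⟨c, hc0, ⟨?_, fun f _ _ => (hC3 f).2⟩, ?_, hC3⟩
  · intro x hx
    have hx01 : x 0 - x 1 ≠ 0 := by
      intro h
      exact hx ⟨0, 1, by decide, sub_eq_zero.1 h⟩
    have h0 : ContDiffAt ℝ ∞ (fun x : Fin 2 → V d => x 0 - x 1) x :=
      ((contDiff_apply ℝ (V d) (0 : Fin 2)).sub (contDiff_apply ℝ (V d) (1 : Fin 2))).contDiffAt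
    have h1 : ContDiffAt ℝ ∞ (fun x : Fin 2 → V d => ‖x 0 - x 1‖) x := h0.norm ℝ hx01
    have h2 : ContDiffAt ℝ ∞ (fun x : Fin 2 → V d => ‖x 0 - x 1‖ ^ (-(2 * a))) x :=
      h1.rpow_const_of_ne (norm_ne_zero_iff.2 hx01)
    exact (contDiffAt_const.mul h2).contDiffWithinAt
  · show LocallyIntegrable s (volume.restrict (Diag d 2)ᶜ)
    rw [hrestr]
    have h1 : LocallyIntegrableOn (fun x : Fin 2 → V d => s x * ∏ i, g (x i)) Set.univ :=
      (hintF fun _ => g).locallyIntegrable.locallyIntegrableOn _
    have hgpos : ∀ x, 0 < g x := by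
      intro x
      rw [hg]
      unfold gau
      have := Real.pi_pos
      positivity
    have hcont : Continuous fun x : Fin 2 → V d => (∏ i, g (x i))⁻¹ := by
      refine Continuous.inv₀ ?_ fun x => (Finset.prod_pos fun i _ => hgpos (x i)).ne'
      exact continuous_finsetProd _ fun i _ => g.continuous.comp (continuous_apply i)
    have h2 := h1.continuousOn_mul hcont.continuousOn isClosed_univ.isLocallyClosed
    rw [locallyIntegrableOn_univ] at h2
    refine h2.congr (Eventually.of_forall fun x => ?_)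
    have h3 : (∏ i, g (x i)) ≠ 0 := (Finset.prod_pos fun i _ => hgpos (x i)).ne'
    simp only
    rw [mul_comm (s x), ← mul_assoc, inv_mul_cancel₀ h3, one_mul]

end

end Pool.Agent.H36.DPC
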